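import Mathlib
import Pool.Agent.Helper88.GF.Final

/-!
# Computability for the `Σ₂` lower bound
-/

set_option autoImplicit false

namespace Pool.Agent.Helper88.GH

open Pool.Agent.Helper88.GF Turing Turing.PartrecToTM2

/-- Iterated search: `psi f (n, j)` is defined iff for all `x < j` there is `y` with
`f (n, x, y) = false`. -/
noncomputable def psi (f : ℕ × ℕ × ℕ → Bool) (a : ℕ × ℕ) : Part ℕ :=
  Nat.rec (Part.some 0)
    (fun x ih => ih.bind fun _ => Nat.rfind fun y => Part.some (!f (a.1, x, y))) a.2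

lemma partrec_psi {f : ℕ × ℕ × ℕ → Bool} (hf : Computable f) : Partrec (psi f) := by
  have h1 : Partrec₂ (fun (a : ℕ × ℕ) (b : ℕ × ℕ) =>
      Nat.rfind fun y => Part.some (!f (a.1, b.1, y))) := by
    refine Partrec.rfind ?_
    have h2 : Computable (fun t : ((ℕ × ℕ) × (ℕ × ℕ)) × ℕ => !f (t.1.1.1, t.1.2.1, t.2)) := by
      refine Primrec.not.to_comp.comp (hf.comp ?_)
      exact (Computable.fst.comp (Computable.fst.comp Computable.fst)).pair
        ((Computable.fst.comp (Computable.snd.comp Computable.fst)).pair Computable.snd)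
    exact h2.partrec
  exact Partrec.nat_rec (f := fun a : ℕ × ℕ => a.2) (g := fun _ => Part.some 0)
    (h := fun (a : ℕ × ℕ) (b : ℕ × ℕ) => Nat.rfind fun y => Part.some (!f (a.1, b.1, y)))
    Computable.snd (Computable.const 0).partrec h1

lemma psi_dom (f : ℕ × ℕ × ℕ → Bool) (n j : ℕ) :
    (psi f (n, j)).Dom ↔ ∀ x < j, ∃ y, f (n, x, y) = false := by
  induction j with
  | zero => simp [psi]
  | succ j ih =>
    have e : psi f (n, j + 1) = (psi f (n, j)).bind fun _ =>
        Nat.rfind fun y => Part.some (!f (n, j, y)) := rfl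
    have h2 : (Nat.rfind fun y => Part.some (!f (n, j, y))).Dom ↔ ∃ y, f (n, j, y) = false := by
      rw [Nat.rfind_dom]
      constructor
      · rintro ⟨y, hy, -⟩
        exact ⟨y, by simpa using hy⟩
      · rintro ⟨y, hy⟩
        exact ⟨y, by simp [hy], fun _ => trivial⟩
    rw [e, Part.bind_dom]
    constructor
    · rintro ⟨h, h'⟩ x hx
      rcases Nat.lt_succ_iff_lt_or_eq.1 hx with hx | rfl
      · exact ih.1 h x hx
      · exact h2.1 h'
    · intro h
      exact ⟨ih.2 fun x hx => h x (Nat.lt_succ_of_lt hx), h2.2 (h j (Nat.lt_succ_self j))⟩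

/-- The indices of the iterated searches. -/
lemma exists_index {f : ℕ × ℕ × ℕ → Bool} (hf : Computable f) :
    ∃ e : ℕ → Nat.Partrec.Code, Computable e ∧
      ∀ n j, ((e n).eval j).Dom ↔ ∀ x < j, ∃ y, f (n, x, y) = false := by
  have h1 : Partrec (fun k : ℕ => psi f k.unpair) :=
    (partrec_psi hf).comp Primrec.unpair.to_comp
  obtain ⟨c, hc⟩ := Nat.Partrec.Code.exists_code.1 (Partrec.nat_iff.1 h1)
  refine ⟨fun n => c.curry n, ?_, fun n j => ?_⟩
  · exact (Nat.Partrec.Code.primrec₂_curry.comp (Primrec.const c) Primrec.id).to_comp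
  · rw [Nat.Partrec.Code.eval_curry, hc]
    show (psi f (Nat.unpair (Nat.pair n j))).Dom ↔ _
    rw [Nat.unpair_pair, psi_dom]

lemma pow_uniq : ∀ a c b d : ℕ, 2 ^ a * (2 * b + 1) = 2 ^ c * (2 * d + 1) → a = c ∧ b = d := by
  intro a
  induction a with
  | zero =>
    intro c b d h
    cases c with
    | zero => exact ⟨rfl, by simpa using h⟩
    | succ c =>
      exfalso
      rw [pow_succ, pow_zero, one_mul, mul_comm (2 ^ c) 2, mul_assoc] at h
      omega
  | succ a ih =>
    intro c b d h
    cases c with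
    | zero =>
      exfalso
      rw [pow_succ, pow_zero, one_mul, mul_comm (2 ^ a) 2, mul_assoc] at h
      omega
    | succ c =>
      rw [pow_succ, pow_succ, mul_comm (2 ^ a) 2, mul_comm (2 ^ c) 2, mul_assoc, mul_assoc] at h
      obtain ⟨h1, h2⟩ := ih c b d (by omega)
      exact ⟨by rw [h1], h2⟩

/-- The universal function: `N = 2 ^ j (2 e + 1) - 1 ↦ φ_e (j)`. -/
noncomputable def uni (N : ℕ) : Part ℕ :=
  (Nat.rfind fun k => Part.some
      (decide (2 ^ k.unpair.1 * (2 * k.unpair.2 + 1) = N + 1))).bind fun k =>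
    (Denumerable.ofNat Nat.Partrec.Code k.unpair.2).eval k.unpair.1

lemma partrec_uni : Partrec uni := by
  refine Partrec.bind (Partrec.rfind ?_) ?_
  · have h : Primrec (fun t : ℕ × ℕ => decide (2 ^ t.2.unpair.1 * (2 * t.2.unpair.2 + 1) =
        t.1 + 1)) := by
      have hp : Primrec (fun n : ℕ => 2 ^ n) := by
        refine (Primrec.nat_rec₁ 1 (f := fun _ m => 2 * m) ?_).of_eq fun n => ?_
        · exact (Primrec.nat_mul.comp (Primrec.const 2) Primrec.snd)
        · induction n with
          | zero => rfl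
          | succ n ih => rw [pow_succ, ← ih, mul_comm]
      have h1 : Primrec (fun t : ℕ × ℕ => t.2.unpair.1) :=
        Primrec.fst.comp (Primrec.unpair.comp Primrec.snd)
      have h2 : Primrec (fun t : ℕ × ℕ => t.2.unpair.2) :=
        Primrec.snd.comp (Primrec.unpair.comp Primrec.snd)
      have h3 := Primrec.nat_mul.comp (hp.comp h1) (Primrec.succ.comp
        (Primrec.nat_mul.comp (Primrec.const 2) h2))
      have h4 : Primrec (fun t : ℕ × ℕ => t.1 + 1) := Primrec.succ.comp Primrec.fst
      exact (Primrec.eq.decide).comp h3 h4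
    exact h.to_comp.partrec
  · have h1 : Computable (fun t : ℕ × ℕ => t.2.unpair.1) :=
      (Primrec.fst.comp (Primrec.unpair.comp Primrec.snd)).to_comp
    have h2 : Computable (fun t : ℕ × ℕ => t.2.unpair.2) :=
      (Primrec.snd.comp (Primrec.unpair.comp Primrec.snd)).to_comp
    exact Partrec₂.comp Nat.Partrec.Code.eval_part ((Computable.ofNat Nat.Partrec.Code).comp h2) h1

lemma uni_dom (e : Nat.Partrec.Code) (j : ℕ) :
    (uni (2 ^ j * (2 * Encodable.encode e + 1) - 1)).Dom ↔ (e.eval j).Dom := by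
  have hpos : 0 < 2 ^ j * (2 * Encodable.encode e + 1) := by positivity
  have hN : 2 ^ j * (2 * Encodable.encode e + 1) - 1 + 1 =
      2 ^ j * (2 * Encodable.encode e + 1) := Nat.sub_add_cancel hpos
  have hk : ∀ k : ℕ, 2 ^ k.unpair.1 * (2 * k.unpair.2 + 1) =
      2 ^ j * (2 * Encodable.encode e + 1) → k = Nat.pair j (Encodable.encode e) := by
    intro k h
    obtain ⟨h1, h2⟩ := pow_uniq _ _ _ _ h
    rw [← h1, ← h2, Nat.pair_unpair]
  have hr : Nat.pair j (Encodable.encode e) ∈ Nat.rfind fun k => Part.some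
      (decide (2 ^ k.unpair.1 * (2 * k.unpair.2 + 1) =
        2 ^ j * (2 * Encodable.encode e + 1) - 1 + 1)) := by
    rw [hN, Nat.mem_rfind]
    refine ⟨by simp, fun {m} hm => ?_⟩
    simp only [Part.mem_some_iff]
    symm
    rw [decide_eq_false_iff_not]
    intro h
    exact absurd (hk m h) hm.ne
  unfold uni
  rw [Part.eq_some_iff.2 hr, Part.bind_some, Nat.unpair_pair, Denumerable.ofNat_encode]

lemma exists_univ2 : ∃ c : ToPartrec.Code, ∀ (e : Nat.Partrec.Code) (j : ℕ),
    (c.eval [2 ^ j * (2 * Encodable.encode e + 1) - 1]).Dom ↔ (e.eval j).Dom := by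
  obtain ⟨c, hc⟩ := ToPartrec.Code.exists_code (Nat.Partrec'.part_iff₁.2 partrec_uni)
  refine ⟨c, fun e j => ?_⟩
  have := hc ⟨[2 ^ j * (2 * Encodable.encode e + 1) - 1], rfl⟩
  simp only at this
  rw [this, ← uni_dom e j]
  rfl

lemma trNat_two (m : ℕ) : trNat (2 * m + 1) = Γ'.bit1 :: trNat m := by
  rw [trNat_eq, trNat_eq, Nat.bit1_bits]
  rfl

lemma trNat_pow (m j : ℕ) :
    trNat (2 ^ j * (m + 1) - 1) = List.replicate j Γ'.bit1 ++ trNat m := by
  induction j with
  | zero => simp
  | succ j ih =>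
    have h1 : 0 < 2 ^ j * (m + 1) := by positivity
    have h2 : 2 ^ (j + 1) * (m + 1) - 1 = 2 * (2 ^ j * (m + 1) - 1) + 1 := by
      rw [pow_succ, mul_comm (2 ^ j) 2, mul_assoc]
      omega
    rw [h2, trNat_two, ih, List.replicate_succ, List.cons_append]

lemma trList_pow (m j : ℕ) :
    trList [2 ^ j * (m + 1) - 1] = List.replicate j Γ'.bit1 ++ trList [m] := by
  simp only [trList, trNat_pow, List.append_assoc]

/-- the pushes -/
lemma run_pre (m j : ℕ) (k : K') : run k (pre m ++ List.replicate j (.push K'.main Γ'.bit1)) [] =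
    some (K'.elim (trList [2 ^ j * (m + 1) - 1]) [] [] [] k) := by
  have e : pre m ++ List.replicate j (.push K'.main Γ'.bit1) =
      ((trList [m]).reverse ++ List.replicate j Γ'.bit1).map (Act.push K'.main) := by
    rw [pre, List.map_append, List.map_replicate]
  rw [e]
  cases k with
  | main =>
    rw [run_pushes, List.reverse_append, List.reverse_reverse, List.reverse_replicate,
      List.append_nil, trList_pow]
    rfl
  | rev => rw [run_pushes_ne (by simp)]; rfl
  | aux => rw [run_pushes_ne (by simp)]; rfl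
  | stack => rw [run_pushes_ne (by simp)]; rfl

end Pool.Agent.Helper88.GH
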