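import Mathlib
import Pool.Agent.Helper88.GH.Comp

/-!
# Family equivalence is `Σ₂`-hard, from the grammars
-/

set_option autoImplicit false

namespace Pool.Agent.Helper88.GH

open Pool.Agent.Helper88.GF Turing Turing.PartrecToTM2

/-- The grammar part (for the machine `tr`). -/
def GrammarPart : Prop := ∀ (Z : Type) [Finite Z] (Ctl : Z → Act K' Γ' → Option Z → Prop)
    (z₀ : Z) (a₀ : Act K' Γ'), ∃ (cS cB : ℕ) (L₀ L : List (ℕ × List (ℕ ⊕ ℕ)))
    (c : Act K' Γ' → ℕ) (v : List (ℕ ⊕ ℕ)), LambdaFree (cS, L₀) ∧ LambdaFree (cS, L ++ L₀) ∧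
    v ≠ [] ∧ ∀ pre : List (Act K' Γ'),
      (Fam (cS, (cB, (pre.map c).map Sum.inr ++ v) :: (L ++ L₀)) = Fam (cS, L₀) ↔
        {j : ℕ | Halts Ctl z₀ (pre ++ List.replicate j a₀)}.Finite)

/-- The condition which is decided. -/
lemma finite_iff (f : ℕ × ℕ × ℕ → Bool) (n : ℕ) :
    {j : ℕ | ∀ x < j, ∃ y, f (n, x, y) = false}.Finite ↔ ∃ x, ∀ y, f (n, x, y) = true := by
  constructor
  · intro h
    by_contra hcon
    push Not at hcon
    have : {j : ℕ | ∀ x < j, ∃ y, f (n, x, y) = false} = Set.univ := by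
      ext j
      simp only [Set.mem_ofPred_eq, Set.mem_univ, iff_true]
      intro x _
      obtain ⟨y, hy⟩ := hcon x
      exact ⟨y, by simpa using hy⟩
    rw [this] at h
    exact Set.infinite_univ h
  · rintro ⟨x, hx⟩
    refine (Set.finite_Iic x).subset ?_
    intro j hj
    by_contra hcon
    rw [Set.mem_Iic, not_le] at hcon
    obtain ⟨y, hy⟩ := hj x hcon
    rw [hx y] at hy
    exact absurd hy (by simp)

theorem main_of (hG : GrammarPart) : ∃ (S B : ℕ) (P₀ P₁ : List (ℕ × List (ℕ ⊕ ℕ))),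
    LambdaFree (S, P₀) ∧ LambdaFree (S, P₁) ∧ P₀ ⊆ P₁ ∧
    ∀ R : ℕ → ℕ → ℕ → Prop, ComputablePred (fun t : ℕ × ℕ × ℕ => R t.1 t.2.1 t.2.2) →
      ∃ β : ℕ → List (ℕ ⊕ ℕ), Computable β ∧ (∀ n, β n ≠ []) ∧
        ∀ n, (∃ x, ∀ y, R n x y) ↔ Fam (S, (B, β n) :: P₁) = Fam (S, P₀) := by
  obtain ⟨c, hc⟩ := exists_univ2
  have hsupp := tr_supports c Cont'.halt
  have hS : ∀ q ∈ codeSupp c Cont'.halt, TM2.SupportsStmt (codeSupp c Cont'.halt) (tr q) :=
    hsupp.2
  have hl : trNormal c Cont'.halt ∈ codeSupp c Cont'.halt := hsupp.1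
  let M : Λ' → TS K' Γ' Λ' (Option Γ') := tr
  have : Finite (Zc M (codeSupp c Cont'.halt)) := zc_finite M _
  obtain ⟨cS, cB, L₀, L, d, v, hG₀, hG₁, hv, hG⟩ :=
    hG (Zc M (codeSupp c Cont'.halt)) (FCtl M (codeSupp c Cont'.halt))
      ⟨(M (trNormal c Cont'.halt), none), trNormal c Cont'.halt, hl, TM2.stmts₁_self⟩
      (.push K'.main Γ'.bit1)
  refine ⟨cS, cB, L₀, L ++ L₀, hG₀, hG₁, List.subset_append_right _ _, fun R hR => ?_⟩
  obtain ⟨hdec, hf⟩ := hR
  let f : ℕ × ℕ × ℕ → Bool := fun t => @decide (R t.1 t.2.1 t.2.2) (hdec t)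
  have hfR : ∀ n x y, f (n, x, y) = true ↔ R n x y := fun n x y =>
    @decide_eq_true_iff (R n x y) (hdec (n, x, y))
  obtain ⟨e, he, hdom⟩ := exists_index (f := f) hf
  refine ⟨fun n => ((pre (2 * Encodable.encode (e n))).map d).map Sum.inr ++ v, ?_, ?_, ?_⟩
  · have h1 : Computable (fun n : ℕ => 2 * Encodable.encode (e n)) :=
      (Primrec.nat_mul.comp (Primrec.const 2) Primrec.id).to_comp.comp
        (Computable.encode.comp he)
    exact Computable.list_append.comp ((computable_pre d).to_comp.comp h1) (Computable.const v)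
  · intro n
    simp [hv]
  · intro n
    rw [hG (pre (2 * Encodable.encode (e n)))]
    have h1 : ∀ j : ℕ, Halts (FCtl M (codeSupp c Cont'.halt))
        ⟨(M (trNormal c Cont'.halt), none), trNormal c Cont'.halt, hl, TM2.stmts₁_self⟩
        (pre (2 * Encodable.encode (e n)) ++ List.replicate j (.push K'.main Γ'.bit1)) ↔
        ∀ x < j, ∃ y, f (n, x, y) = false := by
      intro j
      rw [halts_iff_fctl M _ hS _ hl none
        (K'.elim (trList [2 ^ j * (2 * Encodable.encode (e n) + 1) - 1]) [] [] []) _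
        (fun k => run_pre _ _ k), ← hdom n j, ← hc (e n) j]
      have h3 := tr_eval c [2 ^ j * (2 * Encodable.encode (e n) + 1) - 1]
      have h4 : (StateTransition.eval (TM2.step tr)
          (init c [2 ^ j * (2 * Encodable.encode (e n) + 1) - 1])).Dom ↔
          (c.eval [2 ^ j * (2 * Encodable.encode (e n) + 1) - 1]).Dom := by
        rw [h3]; rfl
      rw [← h4, Part.dom_iff_mem]
      constructor
      · rintro ⟨b, hb⟩
        exact ⟨b, StateTransition.mem_eval.2 hb⟩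
      · rintro ⟨b, hb⟩
        exact ⟨b, StateTransition.mem_eval.1 hb⟩
    have h2 : {j : ℕ | Halts (FCtl M (codeSupp c Cont'.halt))
        ⟨(M (trNormal c Cont'.halt), none), trNormal c Cont'.halt, hl, TM2.stmts₁_self⟩
        (pre (2 * Encodable.encode (e n)) ++ List.replicate j (.push K'.main Γ'.bit1))} =
        {j : ℕ | ∀ x < j, ∃ y, f (n, x, y) = false} := by
      ext j
      exact h1 j
    rw [h2, finite_iff f n]
    simp only [hfR]

end Pool.Agent.Helper88.GH
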