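import Mathlib
import Pool.Agent.Helper88.GH.Final

/-!
# Neither recursively enumerable nor co-recursively enumerable
-/

set_option autoImplicit false

namespace Pool.Agent.Helper88.GH

open Pool.Agent.Helper88.GF Turing Turing.PartrecToTM2

/-- A property to which all `Σ₂` sets reduce is not recursively enumerable. -/
lemma not_re_of_sigma {α : Type} [Primcodable α] {Q : α → Prop}
    (h : ∀ R : ℕ → ℕ → ℕ → Prop, ComputablePred (fun t : ℕ × ℕ × ℕ => R t.1 t.2.1 t.2.2) →
      ∃ β : ℕ → α, Computable β ∧ ∀ n, (∃ x, ∀ y, R n x y) ↔ Q (β n)) :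
    ¬ REPred Q ∧ ¬ REPred (fun a => ¬ Q a) := by
  have ev : Computable (fun t : ℕ × ℕ =>
      Nat.Partrec.Code.evaln t.2 (Denumerable.ofNat Nat.Partrec.Code t.1) 0) := by
    have h1 : Primrec (fun t : ℕ × ℕ =>
        Nat.Partrec.Code.evaln t.2 (Denumerable.ofNat Nat.Partrec.Code t.1) 0) :=
      Nat.Partrec.Code.primrec_evaln.comp
        ((Primrec.snd.pair ((Primrec.ofNat Nat.Partrec.Code).comp Primrec.fst)).pair
          (Primrec.const 0))
    exact h1.to_comp
  have hdom : ∀ e : Nat.Partrec.Code, (e.eval 0).Dom ↔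
      ∃ k, (Nat.Partrec.Code.evaln k e 0).isSome := by
    intro e
    rw [Part.dom_iff_mem]
    constructor
    · rintro ⟨y, hy⟩
      obtain ⟨k, hk⟩ := Nat.Partrec.Code.evaln_complete.1 hy
      exact ⟨k, Option.isSome_iff_exists.2 ⟨y, hk⟩⟩
    · rintro ⟨k, hk⟩
      obtain ⟨y, hy⟩ := Option.isSome_iff_exists.1 hk
      exact ⟨y, Nat.Partrec.Code.evaln_complete.2 ⟨k, hy⟩⟩
  constructor
  · intro hp
    obtain ⟨β, hβ, hQ⟩ := h (fun n _ y => (Nat.Partrec.Code.evaln y
      (Denumerable.ofNat Nat.Partrec.Code n) 0).isSome = false) (by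
        refine ⟨fun _ => inferInstance, ?_⟩
        have h2 : Computable (fun t : ℕ × ℕ × ℕ => !(Nat.Partrec.Code.evaln t.2.2
            (Denumerable.ofNat Nat.Partrec.Code t.1) 0).isSome) :=
          Primrec.not.to_comp.comp (Primrec.option_isSome.to_comp.comp
            (ev.comp (Computable.fst.pair (Computable.snd.comp Computable.snd))))
        refine h2.of_eq fun t => ?_
        show _ = decide ((Nat.Partrec.Code.evaln t.2.2
            (Denumerable.ofNat Nat.Partrec.Code t.1) 0).isSome = false)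
        cases (Nat.Partrec.Code.evaln t.2.2
            (Denumerable.ofNat Nat.Partrec.Code t.1) 0).isSome <;> rfl)
    refine ComputablePred.halting_problem_not_re 0 ?_
    have h3 : REPred (fun e : Nat.Partrec.Code => Q (β (Encodable.encode e))) :=
      Partrec.comp hp (hβ.comp Computable.encode)
    refine h3.of_eq fun e => ?_
    rw [← hQ, Denumerable.ofNat_encode, hdom]
    simp
  · intro hp
    obtain ⟨β, hβ, hQ⟩ := h (fun n x _ => (Nat.Partrec.Code.evaln x
      (Denumerable.ofNat Nat.Partrec.Code n) 0).isSome = true) (by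
        refine ⟨fun _ => inferInstance, ?_⟩
        have h2 : Computable (fun t : ℕ × ℕ × ℕ => (Nat.Partrec.Code.evaln t.2.1
            (Denumerable.ofNat Nat.Partrec.Code t.1) 0).isSome) :=
          Primrec.option_isSome.to_comp.comp
            (ev.comp (Computable.fst.pair (Computable.fst.comp Computable.snd)))
        refine h2.of_eq fun t => ?_
        show _ = decide ((Nat.Partrec.Code.evaln t.2.1
            (Denumerable.ofNat Nat.Partrec.Code t.1) 0).isSome = true)
        cases (Nat.Partrec.Code.evaln t.2.1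
            (Denumerable.ofNat Nat.Partrec.Code t.1) 0).isSome <;> rfl)
    refine ComputablePred.halting_problem_not_re 0 ?_
    have h3 : REPred (fun e : Nat.Partrec.Code => ¬ Q (β (Encodable.encode e))) :=
      Partrec.comp hp (hβ.comp Computable.encode)
    refine h3.of_eq fun e => ?_
    rw [← hQ, Denumerable.ofNat_encode, hdom]
    simp

/-- Consequence of `main_of`: the family equivalence is neither recursively enumerable nor
co-recursively enumerable, even when one production varies. -/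
theorem not_re_of {S B : ℕ} {P₀ P₁ : List (ℕ × List (ℕ ⊕ ℕ))}
    (h : ∀ R : ℕ → ℕ → ℕ → Prop, ComputablePred (fun t : ℕ × ℕ × ℕ => R t.1 t.2.1 t.2.2) →
      ∃ β : ℕ → List (ℕ ⊕ ℕ), Computable β ∧ (∀ n, β n ≠ []) ∧
        ∀ n, (∃ x, ∀ y, R n x y) ↔ Fam (S, (B, β n) :: P₁) = Fam (S, P₀)) :
    ¬ REPred (fun β : List (ℕ ⊕ ℕ) => Fam (S, (B, β) :: P₁) = Fam (S, P₀)) ∧
      ¬ REPred (fun β : List (ℕ ⊕ ℕ) => Fam (S, (B, β) :: P₁) ≠ Fam (S, P₀)) := by
  refine not_re_of_sigma (Q := fun β : List (ℕ ⊕ ℕ) => Fam (S, (B, β) :: P₁) = Fam (S, P₀)) ?_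
  intro R hR
  obtain ⟨β, h1, -, h2⟩ := h R hR
  exact ⟨β, h1, h2⟩

end Pool.Agent.Helper88.GH
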